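import Pool.Agent.Lib.MP_3a4f2f_gt.Main

namespace Pool.Agent.Lib.MP_3a4f2f_gt.Variants.EqualityPF

open Pool.Agent.Lib.MP_3a4f2f_gt

/-- For an alternating diagram in front form, the least exponents `d_P` and `d_F` agree exactly
when any two black regions are joined by an even number of negative crossings. -/
theorem result (P K : Word → L2) (hP : IsHomfly P) (hK : IsKauffman K) (w : Word)
    (hv : Valid [] w []) (hne : w ≠ []) (ha : AltFront w) :
    minExp (P w) = minExp (kauffInv K w) ↔ ∀ a b, Even (negCount w a b) := by
  rw [hK.minExp_alt hv hne ha, hP.minExp_alt hv hne ha]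

end Pool.Agent.Lib.MP_3a4f2f_gt.Variants.EqualityPF
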