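import Pool.Agent.Lib.MP_3a4f2f_gt.H89.Main

set_option autoImplicit false

namespace Pool.Agent.Lib.MP_3a4f2f_gt.Variants.KauffmanAboveGenus

open Pool.Agent.Lib.MP_3a4f2f_gt Pool.Agent.Lib.MP_3a4f2f_gt.H89

/-- The closure of a braid on five strands with eight positive bands (it bounds a surface of
five discs and eight bands, so `1 - χ ≤ 4`) has `d_F = 5`. -/
theorem result (K : Word → L2) (hK : IsKauffman K) :
    Valid [] (bandClosure 5 [(2, 4), (1, 3), (3, 4), (0, 2), (1, 3), (0, 2), (1, 3), (0, 3)]) [] ∧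
    minExp (kauffInv K
      (bandClosure 5 [(2, 4), (1, 3), (3, 4), (0, 2), (1, 3), (0, 2), (1, 3), (0, 3)])) =
      ((5 : ℤ) : WithTop ℤ) :=
  ⟨valid0, minExp0 hK⟩

end Pool.Agent.Lib.MP_3a4f2f_gt.Variants.KauffmanAboveGenus
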