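import Pool.Agent.Lib.MP_3a4f2f_gt.H89.MainU

set_option autoImplicit false

namespace Pool.Agent.Lib.MP_3a4f2f_gt.Variants.KauffmanAboveUnknotting

open Pool.Agent.Lib.MP_3a4f2f_gt Pool.Agent.Lib.MP_3a4f2f_gt.H89

/-- A closed four-braid which three crossing changes turn into the unknot has `d_F = 7`. -/
theorem result (K : Word → L2) (hK : IsKauffman K) :
    ∃ w : Word, w = braidClosure 4
      [(true, 2), (true, 1), (true, 0), (true, 0), (true, 1), (true, 1), (true, 0), (true, 0),
      (true, 1), (true, 1), (true, 0), (true, 0), (false, 2), (false, 1), (true, 0), (true, 0),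
      (true, 1), (true, 2), (false, 0), (false, 0), (false, 0), (false, 0), (false, 0)] ∧
      Valid [] w [] ∧ Unk 3 w ∧ minExp (kauffInv K w) = ((7 : ℤ) : WithTop ℤ) :=
  ⟨u0, rfl, validU, unk0, minExpU hK⟩

end Pool.Agent.Lib.MP_3a4f2f_gt.Variants.KauffmanAboveUnknotting
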