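import Pool.Agent.Lib.MP_3a4f2f_gt.H39.ValW

set_option autoImplicit false

namespace Pool.Agent.Lib.MP_3a4f2f_gt.Variants.WhiteheadDegree

open Pool.Agent.Lib.MP_3a4f2f_gt Pool.Agent.Lib.MP_3a4f2f_gt.H39

/-- Every twisted Whitehead double of a prime alternating diagram with `c ≥ 2` crossings has
skein polynomial of degree exactly `2 c` in `m`. -/
theorem result (P : Word → L2) (hP : IsHomfly P) (u v : Word) (b : Bool) (i : ℕ)
    (hw : UValid 0 (u ++ (.cr b, i) :: v) 0) (hA : Alt (u ++ (.cr b, i) :: v))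
    (hp : H39.Prime (u ++ (.cr b, i) :: v)) (hc : 2 ≤ crs (u ++ (.cr b, i) :: v))
    (β β' : Bool) (n : ℕ) :
    Valid [] (dbl u ++ twist β n i ++ clasp β' i ++ dbl ((.cr b, i) :: v)) [] ∧
    mDeg (P (dbl u ++ twist β n i ++ clasp β' i ++ dbl ((.cr b, i) :: v))) =
      ((2 * crs (u ++ (.cr b, i) :: v) : ℤ) : WithBot ℤ) :=
  ⟨valid_white u v b i hw β β' n, final hP u v b i hw hA hp hc β β' n⟩

end Pool.Agent.Lib.MP_3a4f2f_gt.Variants.WhiteheadDegree
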